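import Mathlib
import Pool.Agent.Run7.h530.TQ.ArrQ

/-!
# The ACC for minimal log discrepancies, for finite quotients of varieties with a torus action of
complexity one

`(X, B)`: a pair, `X` a normal affine variety, `B` an effective `ℝ`-divisor, `K_X + B` is `ℝ`-Cartier.
`G`: a finite group of automorphisms of `X`, of any order. `(Z, B_Z)` is the quotient of `(X, B)` by `G`
(`IsQuot`): the coordinate ring of `Z` consists of the invariants of `G`, and `K_X + B` is the pull-back
of `K_Z + B_Z`. Let `x` be a closed point of `X` and `z` its image. We assume that for every single
element `σ` of `G` which fixes `x`, the quotient of `(X, B)` by the cyclic group generated by `σ` is, at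
the image of `x`, étale locally a general arrangement variety of klt type and of dimension `d`, with an
invariant boundary with coefficients in `Γ` (`CycArr`, `IsArrIn`): an affine variety of dimension
`d = c + n` with an attractive fixed point and with the action of a torus of dimension `n`, of any
complexity `c ≥ 1`, such that the rational quotient is `ℙ^c` and the critical divisor is contained in a
union of hyperplanes in general position. Finally, `(W, B_W)` is any pair which is étale locally
isomorphic to `(Z, B_Z)` at the closed points `w` and `z` (`IsArrQuot`, `Common`).

Theorem: for every `d` and every DCC set `Γ` the set of the minimal log discrepancies `m ≥ 0` of all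
these pairs `(W ∋ w, B_W)` satisfies the ascending chain condition.

For the trivial group this is the starting result `ArrangementSingularities`. The quotient by `G` itself
has in general no action of a torus. Example (this is not part of the Lean file): let a connected linear
algebraic group `H` act on a normal affine variety `X` of klt type, such that its maximal tori act with
complexity one or zero, and let `G` be any finite subgroup of `H`, for instance `H = SL_3 × ℂˣ` and `X`
the affine cone over the variety of complete flags in `ℂ³`, in any equivariant embedding. Every
element `σ` of `G` is contained in a maximal torus of `H`, which acts on the quotient of `X` by `σ`; by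
Luna's slice theorem all closed points of this quotient satisfy the assumption (see the starting
result). If the coefficients `b` of the `H`-invariant boundary `B` are in a DCC set, then the
coefficients `1 - (1 - b) / e` of the quotients are in a DCC set.

Proof: the minimal log discrepancy `m` of the quotient of a pair by a finite group `G` is the minimal
log discrepancy of the quotient by a cyclic subgroup of the stabilizer of `x` (`IsQuot.mld_cyc`): by the
Hurwitz formula for divisors over `X`, `m` is the least number `a (v, X, B) / r (v)` for the divisors
`v` over `X` with the centre `x`, where `r (v)` is the order of the inertia group; this group is cyclic.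
So `m` is in the set of the starting result.

The definitions are in `Pool.Agent.Run7.h530.TQ.QDefs` (`LiesOver`, `IsQuot`), `TQ.ArrQ` (`IsArrIn`,
`CycArr`, `IsArrQuot`, `arrQuotMlds`), and in `Helper58K9.ET.Defs` (`Etale`, `Etale.im`, `OverPt`, `Ext`,
`ordE`, `Common`), `Helper58K9.AR.Defs` (`Fan`, `ArrGerm`, `IsEq`, `KltType`), `H436R3.Fol.Defs`,
`H436R3.KT.Defs`, `W497.Mld.Defs` (valuations, `Foliation`, `IsCanOrd`, `AffVar`, `IsNormal`, `Pt`,
`EffDiv`, `LocEq`, `IsOverGerm`, `IsLogDisc`, `IsMld`, `CoeffIn`), `Q47.TV.Loc` (`FixesPt`),
`TH165.ACC.Main` (`IsDCC`, `IsACC`).
-/

set_option autoImplicit false

namespace Pool.Agent.Results.MP_df5e61_ag.ArrangementQuotients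

open Run7.h530.TQ

/-- **The ACC for the minimal log discrepancies** of the quotients of pairs `(X, B)` by finite groups
whose cyclic quotients at `x` are étale locally general arrangement varieties of klt type, of
dimension `d`, with coefficients in a DCC set `Γ`. -/
theorem result (d : ℕ) (Γ : Set ℝ) (hΓ : Pool.Agent.TH165.ACC.IsDCC Γ) :
    Pool.Agent.TH165.ACC.IsACC (arrQuotMlds d Γ) :=
  arrQuot_acc d hΓ

end Pool.Agent.Results.MP_df5e61_ag.ArrangementQuotients
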