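import Pool.Agent.Run7.h271.ML.Bd

/-!
# The ACC for minimal log discrepancies which are computed by monomial divisors in étale toric
coordinates, for pairs with arbitrary boundaries and ideals

`(X ∋ x, B)` is any pair, with a local equation `e` of `K_X + B` at the closed point `x`, together with
finitely many ideals `I j` of functions on `X` with exponents `c j`: an `ℝ`-ideal `∏ j, (I j) ^ (c j)`.
For principal ideals `I j = (f j)` the log discrepancies (`RIdeal.IsLogDisc`) are the ones of the pair
`(X, B + ∑ j, c j * div (f j))`. An étale chart (`EtChart`) of `(X ∋ x, B)` is a pair `(Y ∋ P, B')`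
together with a variety `U` with étale morphisms `U → X` and `U → Y` and a closed point `y` of `U` over
`x` and over `P`, such that the pull-backs of `K_X + B` and of `K_Y + B'` to `U` agree at `y`. Nothing is
assumed about a torus action on `X`, and the boundary and the ideals need not be torus invariant. When
`x` is a smooth point of `X` and `B = 0`, every regular system of parameters at `x` is such a chart,
with `Y` the affine space and `B' = 0`.

(1) The minimal log discrepancies of `(X ∋ x, B)` with the ideals `I j` and of `(Y ∋ P, B')` with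
ideals which generate the same ideals on `U` are the same.

(2) Let `Y` be a toric germ (any strictly convex cone) with fixed point `P`, and let `m ≥ 0` be the
minimal log discrepancy of `(X ∋ x, B)` with the ideals `I j`. If `B'` is nondegenerate at `P` in the
sense of Khovanskii and Kouchnirenko and the ideals `I j` are generated, on `U`, by monomials, then `m`
is computed by a divisor over `X ∋ x` which is monomial in the étale toric coordinates.

(3) For every `n` and every DCC set `Γ` the ascending chain condition holds for the set of the minimal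
log discrepancies `m ≥ 0` of all `(X ∋ x, B)` with ideals `I j` and exponents `c j ∈ Γ`, `c j > 0`,
which have an étale chart `(Y ∋ P, B')` such that `Y` is a toric germ of dimension `n` with fixed
point `P`, the coefficients of `B'` lie in `Γ`, and either the assumption of (2) holds, or `m` is
computed by a divisor over `X ∋ x` which is monomial in the étale toric coordinates: a weighted blow-up
in these coordinates. In the second case the ideals `I j` are arbitrary nonzero ideals.

(4) The class of (3) contains the toric germs themselves (`X = Y = U`) with all boundaries as in (3)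
and arbitrary ideals. The starting file `ToricGerms` is the case of (3) in which `X = Y = U` and there
are no ideals.
-/

set_option autoImplicit false

namespace Pool.Agent.Results.MP_df5e61_ag.EtaleNondegenerate

open Pool.Agent.H436R3.Fol Pool.Agent.H436R3.KT Pool.Agent.W497.Mld Pool.Agent.Helper58K9.ET
  Pool.Agent.TH165.ACC Pool.Agent.Run7.h271.ML

/-- (1) The minimal log discrepancy can be computed in an étale chart, and without ideals it is the
usual one. -/
def Invariance : Prop :=
  ∀ (G H : Germ) (C : EtChart G H) (m : ℝ),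
    (Pool.Agent.W497.Mld.IsMld G.e m ↔ Pool.Agent.W497.Mld.IsMld H.e m) ∧
    (∀ a : RIdeal G 0, a.IsMld m ↔ Pool.Agent.W497.Mld.IsMld G.e m) ∧
    ∀ (r : ℕ) (a : RIdeal G r) (b : RIdeal H r), Same C a b → (a.IsMld m ↔ b.IsMld m)

/-- (2) For nondegenerate boundaries and monomial ideals the minimal log discrepancy is computed by a
divisor which is monomial in the étale toric coordinates. -/
def NondegComputed : Prop :=
  ∀ (n r : ℕ) (G : Germ) (t : TGerm n) (C : EtChart G t.germ) (a : RIdeal G r) (m : ℝ),
    NondegBoundary t.g t.B → MonoR C a → 0 ≤ m → a.IsMld m → Comp C a m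

/-- The minimal log discrepancies `m ≥ 0` of (3). -/
def toroidalMlds (n : ℕ) (Γ : Set ℝ) : Set ℝ :=
  {m : ℝ | 0 ≤ m ∧ ∃ (r : ℕ) (G : Germ) (t : TGerm n) (C : EtChart G t.germ) (a : RIdeal G r),
    CoeffIn t.B Γ ∧ a.In Γ ∧ a.IsMld m ∧ ((NondegBoundary t.g t.B ∧ MonoR C a) ∨ Comp C a m)}

/-- (4) The toric germs themselves, with arbitrary ideals, belong to the class of (3). -/
def ToricCase : Prop :=
  ∀ (n : ℕ) (Γ : Set ℝ) (t : TGerm n) (m : ℝ), CoeffIn t.B Γ → 0 ≤ m →
    (Pool.Agent.W497.Mld.IsMld t.e m → (NondegBoundary t.g t.B ∨ Computed t.e m) →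
      m ∈ toroidalMlds n Γ) ∧
    ∀ (r : ℕ) (a : RIdeal t.germ r), a.In Γ → a.IsMld m →
      (∃ v, IsOverGerm t.g.P v ∧ IsMonomial n v ∧ a.IsLogDisc (t.val v) m) → m ∈ toroidalMlds n Γ

theorem result : Invariance ∧ NondegComputed ∧
    -- (3) the ascending chain condition
    (∀ (n : ℕ) (Γ : Set ℝ), Pool.Agent.TH165.ACC.IsDCC Γ → IsACC (toroidalMlds n Γ)) ∧
    ToricCase := by
  have h2 : NondegComputed := by
    intro n r G t C a m hB ha hm0 hm
    exact comp_of_nondeg C a hB ha hm0 hm
  have h3 : ∀ (n : ℕ) (Γ : Set ℝ), Pool.Agent.TH165.ACC.IsDCC Γ → IsACC (toroidalMlds n Γ) := by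
    intro n Γ hΓ u hu hmem
    refine acc_union (N := n) (S := fun d => {a | ∃ r, a ∈ mldsR d r Γ}) (fun d _ => acc hΓ) u hu
      fun k => ?_
    obtain ⟨h0, r, G, t, C, a, hB, ha, hm, hor⟩ := hmem k
    exact comp_mem C a hB ha h0 hm (hor.elim (fun h => h2 n r G t C a (u k) h.1 h.2 h0 hm) id)
  refine ⟨?_, h2, h3, ?_⟩
  · intro G H C m
    exact ⟨C.un.isMld_iff m, fun a => isMldI_zero rfl a.I a.c m,
      fun r a b h => inv_mld C a b h m⟩
  · intro n Γ t m hB hm0
    have h5 : ∀ (r : ℕ) (a : RIdeal t.germ r), a.In Γ → a.IsMld m →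
        (∃ v, IsOverGerm t.g.P v ∧ IsMonomial n v ∧ a.IsLogDisc (t.val v) m) →
        m ∈ toroidalMlds n Γ := by
      intro r a ha hm hv
      exact ⟨hm0, r, t.germ, t, EtChart.refl t.germ, a, hB, ha, hm, Or.inr (comp_refl a hv)⟩
    refine ⟨fun hm hor => ?_, h5⟩
    have hc : Computed t.e m := hor.elim (fun h => computed_of_nondeg hm0 hm h) id
    obtain ⟨v, hov, hv, hl⟩ := hc
    exact h5 0 ⟨fun j => j.elim0, fun j => j.elim0⟩ (fun j => j.elim0)
      ((isMldI_zero rfl _ _ _).2 hm)
      ⟨v, hov, hv, m, fun j => j.elim0, hl, fun j => j.elim0, by simp⟩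

end Pool.Agent.Results.MP_df5e61_ag.EtaleNondegenerate
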