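import Pool.Agent.Run7.h271.ML.Quo

/-!
# Minimal log discrepancies of finite quotients of pairs with ideals

Pairs `(X, B)` with `ℝ`-ideals `∏ j, (I j) ^ (c j)`. A pair with local equations of `K_X + B` at all closed
points is `Pr`, its germ at a closed point is `Pr.at`; the minimal log discrepancy of a germ with an
`ℝ`-ideal is `RIdeal.IsMld`. `Qt Z X G`: the pair `Z` is the quotient of the normal pair `X` by a
group `G` of automorphisms (the coordinate ring of `Z` consists of the invariants, and `K_X + B` is the
pull-back of `K_Z + B_Z`); `q.pull I` is the ideal generated on `X` by an ideal `I` on `Z`.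

Theorem.
(1) The minimal log discrepancy `m ≥ 0` of an `ℝ`-ideal on a quotient `Z` of any pair `X` by a finite
group `G` is the one of a cyclic quotient: if `x` is a point over `z`, then there is an element `σ` of
`G` which fixes `x`, such that every quotient of `X` by the cyclic group generated by `σ`, with any
`ℝ`-ideal which generates the same ideals on `X`, has the minimal log discrepancy `m` at the image of
`x`.
(2) The ascending chain condition for the following class of germs with `ℝ`-ideals: the germ has an
étale chart by a finite quotient `Z ∋ z` of a pair `X ∋ x`, the ideals agree on the étale neighbourhood,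
and for all `σ` in `G` which fix `x`, the quotient of `X` by `σ`, with an `ℝ`-ideal as in (1), has an
étale chart by a toric germ of dimension `n` (any cone) with a boundary which is not necessarily torus
invariant, with coefficients in the DCC set `Γ`, where either this boundary is nondegenerate at the
fixed point (Khovanskii, Kouchnirenko) and the ideals are monomial in the chart, or the minimal log
discrepancy, if it is nonnegative, is computed by a divisor which is monomial in the étale toric
coordinates (`HasChart`; then the ideals are arbitrary). The exponents of the ideals are in `Γ`.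

The quotient `Z` itself has in general no toric chart. Example (not part of the Lean file): `X` is the
affine space, `G` a finite group of linear automorphisms, and `B = ∑ c_j (f_j = 0)` with semi-invariant
polynomials `f_j` which for every `σ` in `G` are nondegenerate in coordinates in which `σ` is diagonal:
the quotient by `σ` is a toric germ. For the trivial group the class is the one of the theorem
`EtaleNondegenerate`; `ToroidalQuotients` and `ArrangementQuotients` are about torus invariant
boundaries without ideals.

Proof of (1): for a divisor `w` over `X ∋ x` and the divisor `v` over `Z ∋ z` below `w` the log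
discrepancies (by the Hurwitz formula) and the orders of the ideals are multiplied by the order `e` of
the inertia group of `w`, which is cyclic; take for `σ` a generator of the inertia group of a divisor
above one which computes `m`. The index `e` for the cyclic quotients is not larger than for `Z`.
-/

set_option autoImplicit false

namespace Pool.Agent.Results.MP_df5e61_ag.QuotientsNondegenerate

open Pool.Agent.H436R3.KT Pool.Agent.W497.Mld Pool.Agent.Run7.h271.ML

/-- `m` is the minimal log discrepancy of all the quotients of the pair `X` by the cyclic group
generated by `σ`, at the image of `x`, with the `ℝ`-ideals which generate on `X` the same `ℝ`-ideal as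
the `ℝ`-ideal `a` on the quotient `Z` of `X` by `G`. -/
def CyclicMld {Z X : Pr} {G : Subgroup (X.K ≃ₐ[ℂ] X.K)} (q : Qt Z X G) {z : Pt Z.X} {r : ℕ}
    (a : RIdeal (Z.at z) r) (x : Pt X.X) (σ : X.K ≃ₐ[ℂ] X.K) (m : ℝ) : Prop :=
  ∀ (Z1 : Pr) (q1 : Qt Z1 X (Subgroup.zpowers σ)) (z1 : Pt Z1.X) (b : RIdeal (Z1.at z1) r),
    q1.Over x z1 → b.c = a.c → (∀ j, q1.pull (b.I j) = q.pull (a.I j)) → b.IsMld m

theorem result :
    -- (1) reduction to cyclic groups
    (∀ (Z X : Pr) (G : Subgroup (X.K ≃ₐ[ℂ] X.K)) (q : Qt Z X G) (z : Pt Z.X) (x : Pt X.X) (r : ℕ)
      (a : RIdeal (Z.at z) r) (m : ℝ), Finite G → q.Over x z → 0 ≤ m → a.IsMld m →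
      ∃ σ ∈ G, Fix x σ ∧ CyclicMld q a x σ m) ∧
    -- (2) the ascending chain condition
    (∀ (n : ℕ) (Γ : Set ℝ), Pool.Agent.TH165.ACC.IsDCC Γ →
      Pool.Agent.TH165.ACC.IsACC (chartQuotMlds n Γ)) := by
  refine ⟨?_, fun n Γ hΓ => chartQuot_acc n hΓ⟩
  intro Z X G q z x r a m hG hxz hm0 hm
  let _ := q.alg
  let _ := q.tow
  obtain ⟨σ, hσ, hf, h⟩ := mldI_cyc q.quot hxz a.I a.c hm0 hm
  refine ⟨σ, hσ, hf, fun Z1 q1 z1 b hxz1 hc hI => ?_⟩
  let _ := q1.alg
  let _ := q1.tow
  have hm1 : IsMldI (Z1.E z1) b.I a.c m := h q1.quot hxz1 b.I fun j => (hI j).symm
  rw [← hc] at hm1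
  exact hm1

end Pool.Agent.Results.MP_df5e61_ag.QuotientsNondegenerate
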