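import Mathlib
import Pool.Agent.Run7.h530.TQ.Ex

/-!
# The ACC for minimal log discrepancies, for finite quotients of toroidal pairs

`(X, B)`: a pair, `X` a normal affine variety, `B` an effective `ℝ`-divisor, `K_X + B` is `ℝ`-Cartier,
with local equations `E x` at the closed points `x`. `G`: a finite group of automorphisms of `X`, of any
order and any kind: it need not be abelian, linear or small. `(Z, B_Z)` is the quotient of `(X, B)`
by `G` (`IsQuot`): the coordinate ring of `Z` consists of the invariants of `G` in the coordinate ring
of `X`, and `K_X + B` is the pull-back of `K_Z + B_Z`. So the coefficients of `B_Z` are the numbers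
`1 - (1 - b) / e`, where `b` is a coefficient of `B` and `e` is the ramification index; if `G` acts freely
in codimension one, the coefficients of `B_Z` are those of `B`.

Let `x` be a closed point of `X`, and `z` its image. We assume that for every single element `σ` of `G`
which fixes `x`, the pair `(X, B)` has an étale toric chart at `x` for `σ` (`EChart`): an affine variety
`U` with an automorphism `ρ` and a fixed closed point `u` over `x`, étale morphisms `U → X` and `U → Y`
to an affine toric variety `Y` of dimension `n`, such that `ρ` lies over `σ` and over a monomial
automorphism `τ` of `Y`, and a torus invariant boundary `B'` on `Y` with coefficients in `Γ`, such that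
the pull-backs to `U` of `K_X + B` and `K_Y + B'` agree. `Y` is the affine toric variety of any strictly
convex rational cone; `K_Y` need not be `ℚ`-Cartier. The charts for different elements of `G` are not
related.

Finally, `(W, B_W)` is any pair which is étale locally isomorphic to `(Z, B_Z)` at the closed points `w`
and `z` (`IsTorQuot`, `Common`).

Theorem: for every `n` and every DCC set `Γ` the set of the minimal log discrepancies `m ≥ 0` of all
these pairs `(W ∋ w, B_W)` satisfies the ascending chain condition.

By averaging (this is not part of the Lean file) the charts exist for all toroidal pairs `(X, D)` with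
an action of a finite group `G` which preserves the toroidal boundary `D`, for all `G`-invariant
boundaries `B` supported on `D` (see the hand-in of the same name for the problem on the lower
semicontinuity). In the Lean file it is proven (`torQuot_of_mono`) that the quotients of toric pairs by
finite groups of monomial automorphisms belong to the class.

Proof: the minimal log discrepancy at `z` is the least value of `a (v, X, B) / r (v)` for the divisors `v`
over `X` with the centre `x`, `r (v)` the order of the inertia group (`hurwitz`, `ram`). This group is
cyclic, in the stabilizer of `x`, and with the chart of a generator the value is the one of a toric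
problem, for which the starting files prove the ACC (`Q47.TV.quot_acc_et`, stated there for the formula
`a (v, X, B) / r (v)` and for an abstract notion of an étale morphism). New here are the honest étale
charts, the quotient pair and its minimal log discrepancies, and the passage to étale local
isomorphism classes.

The definitions are in `Pool.Agent.Run7.h530.TQ.Defs` (`FixU`, `EChart`), `TQ.QDefs` (`LiesOver`,
`IsQuot`), `TQ.Fin` (`IsTorQuot`, `torQuotMlds`), and in `Helper58K9.ET.Defs` (`Etale`, `Etale.im`,
`OverPt`, `Ext`, `ordE`, `Common`), `H436R3.Fol.Defs`, `H436R3.KT.Defs`, `W497.Mld.Defs` (valuations,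
`Foliation`, `IsCanOrd`, `AffVar`, `IsNormal`, `Pt`, `EffDiv`, `LocEq`, `IsOverGerm`, `IsLogDisc`,
`IsMld`, `CoeffIn`), `Q47.TV.Germ` (`TorAff`), `Q47.TV.Loc` (`FixesPt`), `Q47.QM.Mono` (`IsMono`),
`TH165.ACC.Main` (`IsDCC`, `IsACC`).
-/

set_option autoImplicit false

namespace Pool.Agent.Results.MP_df5e61_ag.ToroidalQuotients

open Run7.h530.TQ

/-- **The ACC for the minimal log discrepancies of finite quotients of toroidal pairs**, in every
dimension `n` and for all boundaries with coefficients in a DCC set `Γ`. -/
theorem result (n : ℕ) (Γ : Set ℝ) (hΓ : Pool.Agent.TH165.ACC.IsDCC Γ) :
    Pool.Agent.TH165.ACC.IsACC (torQuotMlds n Γ) :=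
  torQuot_acc n hΓ

end Pool.Agent.Results.MP_df5e61_ag.ToroidalQuotients
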